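import Mathlib
import Pool.Agent.H22.Tietze

set_option autoImplicit false

namespace Pool.Agent.Results.MP_b9ebd9_co.Tietze
open Classical

/-- minimum total length of a family of cycles covering every edge -/
noncomputable def scc {V : Type} (G : SimpleGraph V) : ℕ :=
  sInf {n | ∃ F : List (Σ u : V, G.Walk u u), (∀ c ∈ F, c.2.IsCycle) ∧
    (∀ e ∈ G.edgeSet, ∃ c ∈ F, e ∈ c.2.edges) ∧ (F.map (fun c => c.2.length)).sum = n}

/-- minimum length of a closed walk traversing every edge -/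
noncomputable def cpp {V : Type} (G : SimpleGraph V) : ℕ :=
  sInf {n | ∃ (u : V) (p : G.Walk u u), (∀ e ∈ G.edgeSet, e ∈ p.edges) ∧ p.length = n}

/-- weights in {1,2} on the edges, every edge cut of even total weight -/
def Eulerian {V : Type} [Fintype V] (G : SimpleGraph V) (w : Sym2 V → ℕ) : Prop :=
  (∀ e ∈ G.edgeSet, w e = 1 ∨ w e = 2) ∧ ∀ S : Set V,
    Even (∑ e ∈ Finset.univ.filter
      (fun e : Sym2 V => e ∈ G.edgeSet ∧ (∃ a ∈ e, a ∈ S) ∧ (∃ a ∈ e, a ∉ S)), w e)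

/-- a family of cycles covering each edge e exactly w e times -/
def Coverable {V : Type} (G : SimpleGraph V) (w : Sym2 V → ℕ) : Prop :=
  ∃ F : List (Σ u : V, G.Walk u u), (∀ c ∈ F, c.2.IsCycle) ∧
    ∀ e ∈ G.edgeSet, F.countP (fun c => decide (e ∈ c.2.edges)) = w e

open Pool.Agent.H22 in
theorem result : ∃ G : SimpleGraph (Fin 12),
    (∀ S : Finset (Fin 12), S.card < 3 → (G.induce ((↑S : Set (Fin 12))ᶜ)).Connected) ∧
    scc G = 24 ∧ cpp G = 24 ∧ ∃ w : Sym2 (Fin 12) → ℕ, Eulerian G w ∧ ¬ Coverable G w := by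
  refine ⟨EL.gr Tietze.s Tietze.t, Tietze.conn, ?_, ?_, Tietze.w, ⟨?_, ?_⟩, ?_⟩
  · obtain ⟨F, ⟨h1, h2⟩, h3⟩ := Cyc.exists_cover Tietze.s Tietze.t Tietze.loopless _ Tietze.cover_ok
    rw [Tietze.cover_len] at h3
    apply le_antisymm
    · exact Nat.sInf_le ⟨F, h1, h2, h3⟩
    · unfold scc
      refine le_csInf ⟨24, F, h1, h2, h3⟩ ?_
      rintro n ⟨F', a1, a2, rfl⟩
      exact Tietze.fam_lower F' a1 a2
  · obtain ⟨u, p, h1, h2⟩ := Tietze.walk_exists
    apply le_antisymm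
    · exact Nat.sInf_le ⟨u, p, h1, h2⟩
    · unfold cpp
      refine le_csInf ⟨24, u, p, h1, h2⟩ ?_
      rintro n ⟨u', p', a1, rfl⟩
      exact Tietze.walk_lower u' p' a1
  · intro e _
    unfold Tietze.w
    split_ifs <;> simp
  · intro S
    exact Tietze.cut_sum S _ (fun x => by simp only [Finset.mem_filter, Finset.mem_univ, true_and])
  · rintro ⟨F, h1, h2⟩
    refine Tietze.no_wcover F h1 (fun c e => decide (e ∈ c.2.edges)) (fun c x => decide_eq_true_iff) (fun e he => ?_)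
    rw [← h2 e he]
    exact List.countP_congr (fun c _ => by simp only [decide_eq_true_eq])

end Pool.Agent.Results.MP_b9ebd9_co.Tietze
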